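import Pool.Agent.helper73.SHL.Spec

/-!
# Project shl (MP_a2a22c_al), row shl:BLK

A representation of `D` of dimension `d` from one of the matrix ring `M_k(D)` of dimension `d k`.
-/

set_option autoImplicit false

namespace Pool.Agent.SHL

open Matrix Module Pool.Agent.PR

private lemma BLK_same {D : Type} [Ring D] {k : ℕ} (i j l : Fin k) (x y : D) :
    Matrix.single i j x * Matrix.single j l y = Matrix.single i l (x * y) :=
  Matrix.single_mul_single_same ..

/-- the rank of the idempotent `E = Ψ (single 0 0 1)` -/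
private lemma BLK_trace {F : Type} [Field F] [CharZero F] {D : Type} [Ring D] {d k : ℕ} (hk : 0 < k)
    (Ψ : Matrix (Fin k) (Fin k) D →+* Matrix (Fin (d * k)) (Fin (d * k)) F) :
    (Ψ (Matrix.single ⟨0, hk⟩ ⟨0, hk⟩ 1)).trace = (d : F) := by
  have h1 : ∀ i : Fin k, (Ψ (Matrix.single i i 1)).trace = (Ψ (Matrix.single ⟨0, hk⟩ ⟨0, hk⟩ 1)).trace := by
    intro i
    have e1 : Matrix.single i i (1 : D) = Matrix.single i ⟨0, hk⟩ 1 * Matrix.single ⟨0, hk⟩ i 1 := by
      rw [BLK_same, one_mul]
    have e2 : Matrix.single (⟨0, hk⟩ : Fin k) ⟨0, hk⟩ (1 : D) =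
        Matrix.single ⟨0, hk⟩ i 1 * Matrix.single i ⟨0, hk⟩ 1 := by
      rw [BLK_same, one_mul]
    rw [e1, e2, map_mul, map_mul, Matrix.trace_mul_comm]
  have h2 : ∑ i : Fin k, Matrix.single i i (1 : D) = 1 := by
    ext a b
    rw [Matrix.sum_apply, Matrix.one_apply]
    simp only [Matrix.single_apply]
    by_cases hab : a = b
    · subst hab
      simp
    · rw [if_neg hab]
      refine Finset.sum_eq_zero fun i _ => ?_
      rw [if_neg]
      rintro ⟨rfl, h⟩
      exact hab h
  have h3 : (k : F) * (Ψ (Matrix.single ⟨0, hk⟩ ⟨0, hk⟩ 1)).trace = (d : F) * k := by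
    have h4 := congrArg (fun M => (Ψ M).trace) h2
    simp only [map_sum, Matrix.trace_sum, h1, map_one, Matrix.trace_one, Fintype.card_fin,
      Finset.sum_const, Finset.card_univ, nsmul_eq_mul] at h4
    rw [h4]
    push_cast
    ring
  have hk' : (k : F) ≠ 0 := by
    exact_mod_cast hk.ne'
  have h5 : (k : F) * (Ψ (Matrix.single ⟨0, hk⟩ ⟨0, hk⟩ 1)).trace = (k : F) * d := by
    rw [h3]
    ring
  exact mul_left_cancel₀ hk' h5

theorem BLK : BLK_stmt := by
  intro F _ _ D _ _ d k hk Ψ
  obtain ⟨o, ho⟩ : ∃ o : Fin k, o = ⟨0, hk⟩ := ⟨_, rfl⟩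
  have htr := BLK_trace hk Ψ
  rw [← ho] at htr
  rw [← ho]
  obtain ⟨T, hT⟩ : ∃ T : D → ((Fin (d * k) → F) →ₗ[F] (Fin (d * k) → F)),
      ∀ x, T x = Matrix.toLin' (Ψ (Matrix.single o o x)) := ⟨_, fun _ => rfl⟩
  have hmul : ∀ x y, T (x * y) = T x ∘ₗ T y := by
    intro x y
    rw [hT, hT, hT, ← Matrix.toLin'_mul, ← map_mul, BLK_same]
  have hadd : ∀ x y, T (x + y) = T x + T y := by
    intro x y
    rw [hT, hT, hT, ← map_add, ← map_add, ← Matrix.single_add]
  have hid : IsIdempotentElem (T 1) := by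
    have h := hmul 1 1
    rw [one_mul] at h
    exact h.symm
  have hproj := LinearMap.IsIdempotentElem.isProj_range _ hid
  have hrank : finrank F (LinearMap.range (T 1)) = d := by
    have h1 := hproj.trace
    rw [hT 1, Matrix.trace_toLin'_eq, htr, ← hT 1] at h1
    exact_mod_cast h1.symm
  have hmem : ∀ x v, T x v ∈ LinearMap.range (T 1) := by
    intro x v
    refine ⟨T x v, ?_⟩
    have h := congrArg (fun f => f v) (hmul 1 x)
    rw [one_mul] at h
    exact h.symm
  have hone : ∀ v ∈ LinearMap.range (T 1), T 1 v = v := fun v hv => hproj.map_id v hv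
  have hR : ∃ R : D →+* Module.End F (LinearMap.range (T 1)), ∀ x, R x =
      (T x).restrict (fun v _ => hmem x v) := by
    refine ⟨{ toFun := fun x => (T x).restrict (fun v _ => hmem x v)
              map_one' := ?_, map_mul' := ?_, map_zero' := ?_, map_add' := ?_ }, fun x => rfl⟩
    · ext v : 1
      apply Subtype.ext
      exact hone v.1 v.2
    · intro x y
      ext v : 1
      apply Subtype.ext
      exact congrArg (fun f => f v.1) (hmul x y)
    · ext v : 1
      apply Subtype.ext
      have h := hadd 0 0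
      rw [add_zero] at h
      have h0 : T 0 = 0 := by
        have h1 : T 0 + 0 = T 0 + T 0 := by rw [add_zero]; exact h
        exact (add_left_cancel h1).symm
      change T 0 v.1 = 0
      rw [h0]
      rfl
    · intro x y
      ext v : 1
      apply Subtype.ext
      exact congrArg (fun f => f v.1) (hadd x y)
  obtain ⟨R, hRx⟩ := hR
  obtain ⟨b⟩ : Nonempty (Basis (Fin d) F (LinearMap.range (T 1))) :=
    ⟨finBasisOfFinrankEq F _ hrank⟩
  refine ⟨((LinearMap.toMatrixAlgEquiv b).toRingEquiv.toRingHom).comp R, fun x => ?_⟩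
  have h1 : (((LinearMap.toMatrixAlgEquiv b).toRingEquiv.toRingHom).comp R x).trace =
      LinearMap.trace F _ (R x) := by
    rw [LinearMap.trace_eq_matrix_trace F b]
    rfl
  rw [h1, hRx, LinearMap.trace_restrict_eq_of_forall_mem _ _ (hmem x), hT, Matrix.trace_toLin'_eq]

end Pool.Agent.SHL
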